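import Pool.Agent.W602.RG.Stm

/-! Project RG, part CIR. -/

set_option autoImplicit false

open FF Pool.Agent.W603.LV Pool.Agent.W603.PV Pool.Agent.W602.RG

namespace Pool.Agent.W724.RG.CIR

/-- the numbers -/
theorem arith {ι : Type} (T : Finset ι) (r N : ℕ) (hr : 1 ≤ r) (hN : r ^ 2 ≤ N)
    (o : Fin (r + 1) → ι → ℤ) (m w : ι → ℤ)
    (hm : ∀ P ∈ T, ∀ i, m P ≤ o i P) (ho : ∀ i, ∑ P ∈ T, o i P = 0) (hw : ∑ P ∈ T, w P = 0)
    (key : ∀ P ∈ T, (N : ℤ) * (∑ i, o i P - m P) - ((r : ℤ) - 1) * ∑ i, (o i P - m P) ≤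
      N * w P) : ∀ P ∈ T, ∀ i, o i P = m P := by
  have h1 := Finset.sum_le_sum key
  have hs : ∑ P ∈ T, ∑ i, o i P = 0 := by
    rw [Finset.sum_comm]
    exact Finset.sum_eq_zero fun i _ => ho i
  have hs2 : ∑ P ∈ T, ∑ i : Fin (r + 1), (o i P - m P) = - ((r : ℤ) + 1) * ∑ P ∈ T, m P := by
    have : ∀ P, ∑ i : Fin (r + 1), (o i P - m P) = ∑ i, o i P - ((r : ℤ) + 1) * m P := by
      intro P
      rw [Finset.sum_sub_distrib, Finset.sum_const, Finset.card_univ, Fintype.card_fin,
        nsmul_eq_mul]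
      push_cast; ring
    simp only [this]
    rw [Finset.sum_sub_distrib, hs, ← Finset.mul_sum]
    ring
  have e1 : ∑ P ∈ T, ((N : ℤ) * (∑ i, o i P - m P) - ((r : ℤ) - 1) * ∑ i, (o i P - m P)) =
      - (N : ℤ) * (∑ P ∈ T, m P) + ((r : ℤ) - 1) * ((r : ℤ) + 1) * ∑ P ∈ T, m P := by
    rw [Finset.sum_sub_distrib, ← Finset.mul_sum, ← Finset.mul_sum, Finset.sum_sub_distrib, hs, hs2]
    ring
  have e2 : ∑ P ∈ T, (N : ℤ) * w P = 0 := by rw [← Finset.mul_sum, hw, mul_zero]
  rw [e1, e2] at h1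
  have h2 : ∑ P ∈ T, m P ≤ 0 := by
    rw [← ho 0]
    exact Finset.sum_le_sum fun P hP => hm P hP 0
  have hN' : (r : ℤ) ^ 2 ≤ N := by exact_mod_cast hN
  have h3 : 0 ≤ ∑ P ∈ T, m P := by nlinarith
  have h4 : ∑ P ∈ T, m P = 0 := le_antisymm h2 h3
  intro P hP i
  have h5 : ∑ P ∈ T, (o i P - m P) = 0 := by
    rw [Finset.sum_sub_distrib, ho i, h4, sub_zero]
  have h6 := (Finset.sum_eq_zero_iff_of_nonneg (fun P hP => sub_nonneg.mpr (hm P hP i))).mp h5 P hP
  linarith

theorem main (h1 : S_WNZ) (h2 : S_WSW) (h3 : S_LC0) (h4 : S_LCM) : S_CIR := by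
  classical
  intro L Ω E _ _ _ _ _ _ _ _ _ D hD r N hN0 hN g a hg ha hDa hsum hind hdvd
  have _ : CharZero E := charZero_of_injective_algebraMap (algebraMap Ω E).injective
  have hG0 : ∀ i, a i * g i ≠ 0 := fun i => mul_ne_zero (ha i) (hg i)
  have hr : 1 ≤ r := by
    by_contra hcon
    have hr0 : r = 0 := by omega
    subst hr0
    rw [Fin.sum_univ_one] at hsum
    exact hG0 0 hsum
  -- the Wronskians
  set W : Fin (r + 1) → E := fun i => Wr D (fun l => a (i.succAbove l) * g (i.succAbove l)) with hWd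
  have hW0 : ∀ i, W i ≠ 0 := by
    intro i
    refine h1 L E D r _ ?_
    intro c hc hcs
    have hc' := hind (i.insertNth 0 (fun l => c l * a (i.succAbove l))) ?_
      ⟨i, by rw [Fin.insertNth_apply_same]⟩ ?_
    · intro l
      have h5 := hc' (i.succAbove l)
      rw [Fin.insertNth_apply_succAbove] at h5
      exact (mul_eq_zero.mp h5).resolve_right (ha _)
    · intro j
      refine Fin.succAboveCases i ?_ ?_ j
      · rw [Fin.insertNth_apply_same]; exact map_zero D
      · intro l
        rw [Fin.insertNth_apply_succAbove, D.leibniz, hc, hDa, smul_zero, smul_zero, add_zero]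
    · rw [Fin.sum_univ_succAbove _ i, Fin.insertNth_apply_same, zero_mul, zero_add]
      simp only [Fin.insertNth_apply_succAbove]
      rw [← hcs]
      exact Finset.sum_congr rfl fun l _ => by ring
  have hWo : ∀ (P : Place Ω E) (i j : Fin (r + 1)), P.ord (W i) = P.ord (W j) := by
    intro P i j
    rcases h2 L E D r (fun i => a i * g i) hsum i j with h5 | h5
    · exact congrArg P.ord h5
    · have h6 : W i = - W j := h5
      rw [h6, P.ord_neg]
  -- the minimum
  have hmin : ∀ P : Place Ω E, ∃ i0 : Fin (r + 1), ∀ i, P.ord (a i0 * g i0) ≤ P.ord (a i * g i) := by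
    intro P
    obtain ⟨i0, -, h⟩ := Finset.exists_min_image (Finset.univ : Finset (Fin (r + 1)))
      (fun i => P.ord (a i * g i)) ⟨0, Finset.mem_univ _⟩
    exact ⟨i0, fun i => h i (Finset.mem_univ _)⟩
  choose i0 hi0 using hmin
  -- the support
  obtain ⟨T, hT⟩ := exists_supp (k := Ω) (Finset.univ : Finset (Option (Fin (r + 1))))
    (fun x => match x with | none => W 0 | some i => a i * g i)
  have hTW : ∀ P : Place Ω E, P.ord (W 0) ≠ 0 → P ∈ T := hT none (Finset.mem_univ _)
  have hTG : ∀ i, ∀ P : Place Ω E, P.ord (a i * g i) ≠ 0 → P ∈ T := fun i =>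
    hT (some i) (Finset.mem_univ _)
  have key : ∀ P ∈ T, ∀ i, P.ord (a i * g i) = P.ord (a (i0 P) * g (i0 P)) := by
    refine arith T r N hr hN (fun i P => P.ord (a i * g i)) (fun P => P.ord (a (i0 P) * g (i0 P)))
      (fun P => P.ord (W 0)) (fun P _ i => hi0 P i) (fun i => sum_ord_finset (k := Ω) _ T (hTG i))
      (sum_ord_finset (k := Ω) _ T hTW) ?_
    intro P _
    beta_reduce
    set m : ℤ := P.ord (a (i0 P) * g (i0 P)) with hm
    have hs1 : ∑ i, P.ord (a i * g i) =
        m + ∑ l : Fin r, P.ord (a ((i0 P).succAbove l) * g ((i0 P).succAbove l)) :=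
      Fin.sum_univ_succAbove _ (i0 P)
    have hs2 : ∑ i, (P.ord (a i * g i) - m) =
        ∑ l : Fin r, (P.ord (a ((i0 P).succAbove l) * g ((i0 P).succAbove l)) - m) := by
      rw [Fin.sum_univ_succAbove _ (i0 P), ← hm, sub_self, zero_add]
    have hnn : 0 ≤ ∑ l : Fin r, (P.ord (a ((i0 P).succAbove l) * g ((i0 P).succAbove l)) - m) :=
      Finset.sum_nonneg fun l _ => sub_nonneg.mpr (hi0 P _)
    have hr' : (0 : ℤ) ≤ (r : ℤ) - 1 := by
      have : (1 : ℤ) ≤ r := by exact_mod_cast hr
      linarith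
    have hNn : (0 : ℤ) ≤ N := by positivity
    rw [hs1, hs2, hWo P 0 (i0 P), add_sub_cancel_left]
    rcases hD P with hP | hP
    · have h5 := h3 L Ω E D P hP r
        (fun l => a ((i0 P).succAbove l) * g ((i0 P).succAbove l)) (fun l => hG0 _) (hW0 (i0 P))
      have h6 := mul_le_mul_of_nonneg_left h5 hNn
      have h7 := mul_nonneg hr' hnn
      refine le_trans ?_ h6
      linarith
    · have h5 := h4 L Ω E D P hP r
        (fun l => a ((i0 P).succAbove l) * g ((i0 P).succAbove l)) m (fun l => hG0 _)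
        (fun l => hi0 P _) (hW0 (i0 P))
      have h6 := mul_le_mul_of_nonneg_left h5 hNn
      -- the number of indices
      have h7 : (N : ℤ) * ((Finset.univ.filter fun l : Fin r =>
          m < P.ord (a ((i0 P).succAbove l) * g ((i0 P).succAbove l))).card : ℤ) ≤
          ∑ l : Fin r, (P.ord (a ((i0 P).succAbove l) * g ((i0 P).succAbove l)) - m) := by
        have h8 : ∑ l ∈ Finset.univ.filter (fun l : Fin r =>
            m < P.ord (a ((i0 P).succAbove l) * g ((i0 P).succAbove l))), (N : ℤ) ≤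
            ∑ l ∈ Finset.univ.filter (fun l : Fin r =>
            m < P.ord (a ((i0 P).succAbove l) * g ((i0 P).succAbove l))),
            (P.ord (a ((i0 P).succAbove l) * g ((i0 P).succAbove l)) - m) := by
          refine Finset.sum_le_sum fun l hl => ?_
          rw [Finset.mem_filter] at hl
          have h9 : (N : ℤ) ∣ P.ord (a ((i0 P).succAbove l) * g ((i0 P).succAbove l)) - m := by
            rw [hm, P.ord_mul (ha _) (hg _), P.ord_mul (ha _) (hg _), hP.2.2 _ (hDa _),
              hP.2.2 _ (hDa _), zero_add, zero_add]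
            exact hdvd P hP _ _
          exact Int.le_of_dvd (by linarith [hl.2]) h9
        rw [Finset.sum_const, nsmul_eq_mul, mul_comm] at h8
        refine h8.trans ?_
        exact Finset.sum_le_sum_of_subset_of_nonneg (Finset.filter_subset _ _)
          fun l _ _ => sub_nonneg.mpr (hi0 P _)
      have h8 := mul_le_mul_of_nonneg_left h7 hr'
      refine le_trans ?_ h6
      rw [mul_sub]
      have e : (N : ℤ) * (((r : ℤ) - 1) * ((Finset.univ.filter fun l : Fin r =>
          m < P.ord (a ((i0 P).succAbove l) * g ((i0 P).succAbove l))).card : ℤ)) =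
          ((r : ℤ) - 1) * ((N : ℤ) * ((Finset.univ.filter fun l : Fin r =>
          m < P.ord (a ((i0 P).succAbove l) * g ((i0 P).succAbove l))).card : ℤ)) := by ring
      rw [e]
      linarith
  intro P i j
  by_cases hP : P ∈ T
  · rw [key P hP i, key P hP j]
  · have h5 : ∀ i, P.ord (a i * g i) = 0 := fun i => by
      by_contra h
      exact hP (hTG i P h)
    rw [h5 i, h5 j]

end Pool.Agent.W724.RG.CIR
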